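import Pool.Agent.helper82.OG.Spec

set_option autoImplicit false

open Finset

noncomputable section

namespace Pool.Agent.OG

open Pool.Agent.EP

theorem FST : FST_stmt := by
  intro K Y τ R hR
  have h1 : #R * τ ≤ ∑ r ∈ R, #(TT r Y) := by
    rw [← smul_eq_mul, ← Finset.sum_const]
    exact Finset.sum_le_sum fun r hr => (hR r hr).2.2
  refine le_trans h1 ?_
  rw [← Finset.card_sigma]
  refine Finset.card_le_card_of_injOn (fun x => (x.1, x.2)) ?_ ?_
  · rintro ⟨r, m⟩ hx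
    rw [Finset.mem_coe, Finset.mem_sigma] at hx
    obtain ⟨h2, h3⟩ := hx
    have h4 := hR r h2
    rw [TT, Finset.mem_filter] at h3
    rw [Finset.mem_coe, PQ, Finset.mem_filter, Finset.mem_product, Finset.mem_Ioc]
    exact ⟨⟨⟨h4.1, h4.2.1⟩, h3.1⟩, h3.2⟩
  · rintro ⟨r, m⟩ _ ⟨r', m'⟩ _ h
    simp only [Prod.mk.injEq] at h
    obtain ⟨rfl, rfl⟩ := h
    rfl

end Pool.Agent.OG
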