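import Pool.Agent.helper82.OG.Spec

set_option autoImplicit false

open Finset

noncomputable section

namespace Pool.Agent.OG

open Pool.Agent.EP

theorem PRB_step (s t : ℝ) (hs : 0 < s) (ht : 0 < t) (h : t ^ 2 = s ^ 2 + 1) :
    1 / (t ^ 2 * t) ≤ 2 / s - 2 / t := by
  have h1 : s * (2 * t ^ 2 + 1) ≤ 2 * t ^ 3 := by
    apply le_of_sq_le_sq _ (by positivity)
    have e : (s * (2 * t ^ 2 + 1)) ^ 2 = s ^ 2 * (2 * t ^ 2 + 1) ^ 2 := by ring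
    have hs2 : s ^ 2 = t ^ 2 - 1 := by linarith
    rw [e, hs2]
    nlinarith [sq_nonneg t]
  have h2 : 2 / s - 2 / t - 1 / (t ^ 2 * t) = (2 * t ^ 3 - s * (2 * t ^ 2 + 1)) / (s * t ^ 3) := by
    field_simp
    ring
  have h3 : 0 ≤ (2 * t ^ 3 - s * (2 * t ^ 2 + 1)) / (s * t ^ 3) := by
    apply div_nonneg (by linarith) (by positivity)
  linarith

theorem PRB_sum (J : ℕ) : ∑ d ∈ Ioc 0 (J + 1), 1 / ((d : ℝ) * √d) ≤ 3 - 2 / √((J + 1 : ℕ) : ℝ) := by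
  induction J with
  | zero => norm_num
  | succ J ih =>
    rw [Finset.sum_Ioc_succ_top (by omega)]
    have h1 := PRB_step (√((J + 1 : ℕ) : ℝ)) (√((J + 1 + 1 : ℕ) : ℝ)) (by positivity)
      (by positivity) (by
        rw [Real.sq_sqrt (by positivity), Real.sq_sqrt (by positivity)]
        push_cast
        ring)
    rw [Real.sq_sqrt (by positivity)] at h1
    linarith

theorem PRB_sum' (J : ℕ) : ∑ d ∈ Ioc 0 J, 1 / ((d : ℝ) * √d) ≤ 4 := by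
  rcases Nat.eq_zero_or_pos J with h | h
  · subst h
    norm_num
  · obtain ⟨k, rfl⟩ : ∃ k, J = k + 1 := ⟨J - 1, by omega⟩
    have h1 := PRB_sum k
    have h2 : 0 ≤ 2 / √((k + 1 : ℕ) : ℝ) := by positivity
    linarith

theorem PRB_pow (d : ℕ) (hd : 0 < d) (β : ℝ) (hβ : 3 / 4 ≤ β) (Z : ℕ) :
    ((Z / d ^ 2 : ℕ) : ℝ) ^ β ≤ (Z : ℝ) ^ β * (1 / ((d : ℝ) * √d)) := by
  have hd1 : (1 : ℝ) ≤ d := by exact_mod_cast hd
  have hd0 : (0 : ℝ) < d := by linarith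
  have h1 : ((Z / d ^ 2 : ℕ) : ℝ) ≤ (Z : ℝ) / (d : ℝ) ^ 2 := by
    have := Nat.cast_div_le (α := ℝ) (m := Z) (n := d ^ 2)
    rwa [Nat.cast_pow] at this
  have h2 : ((Z / d ^ 2 : ℕ) : ℝ) ^ β ≤ ((Z : ℝ) / (d : ℝ) ^ 2) ^ β :=
    Real.rpow_le_rpow (by positivity) h1 (by linarith)
  have h3 : ((Z : ℝ) / (d : ℝ) ^ 2) ^ β = (Z : ℝ) ^ β / ((d : ℝ) ^ 2) ^ β :=
    Real.div_rpow (by positivity) (by positivity) β
  have h4 : (d : ℝ) * √d ≤ ((d : ℝ) ^ 2) ^ β := by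
    have h5 : ((d : ℝ) ^ 2) ^ (3 / 4 : ℝ) ≤ ((d : ℝ) ^ 2) ^ β :=
      Real.rpow_le_rpow_of_exponent_le (by nlinarith) hβ
    have h6 : ((d : ℝ) ^ 2) ^ (3 / 4 : ℝ) = (d : ℝ) * √d := by
      rw [← Real.rpow_natCast, ← Real.rpow_mul hd0.le, Real.sqrt_eq_rpow]
      nth_rewrite 2 [← Real.rpow_one (d : ℝ)]
      rw [← Real.rpow_add hd0]
      norm_num
    rw [← h6]
    exact h5
  refine le_trans h2 ?_
  rw [h3, div_eq_mul_one_div]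
  refine mul_le_mul_of_nonneg_left ?_ (by positivity)
  exact one_div_le_one_div_of_le (by positivity) h4

theorem PRB (hPAR : PAR_stmt) : PRB_stmt := by
  intro J L D X β B hβ hβ1 hB hF hX hD
  have h1 := hPAR J L D hD
  have h2 : (#(PQ J L) : ℝ) ≤ ∑ d ∈ Ioc 0 J, (D : ℝ) * (sO (J * L / d ^ 2) : ℝ) := by
    have : ((#(PQ J L) : ℕ) : ℝ) ≤ ((∑ d ∈ Ioc 0 J, D * sO (J * L / d ^ 2) : ℕ) : ℝ) := by
      exact_mod_cast h1
    refine le_trans this (le_of_eq ?_)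
    push_cast
    rfl
  have h3 : ∑ d ∈ Ioc 0 J, (D : ℝ) * (sO (J * L / d ^ 2) : ℝ) ≤
      ∑ d ∈ Ioc 0 J, (D : ℝ) * (((J : ℝ) * L) ^ β * (1 / ((d : ℝ) * √d)) + B) := by
    refine Finset.sum_le_sum fun d hd => ?_
    rw [Finset.mem_Ioc] at hd
    refine mul_le_mul_of_nonneg_left ?_ (Nat.cast_nonneg D)
    have h4 := hF (J * L / d ^ 2) (le_trans (Nat.div_le_self _ _) hX)
    have h5 := PRB_pow d hd.1 β hβ (J * L)
    rw [Nat.cast_mul] at h5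
    linarith
  have h6 : ∑ d ∈ Ioc 0 J, (D : ℝ) * (((J : ℝ) * L) ^ β * (1 / ((d : ℝ) * √d)) + B) =
      D * (((J : ℝ) * L) ^ β * (∑ d ∈ Ioc 0 J, 1 / ((d : ℝ) * √d)) + J * B) := by
    rw [← Finset.mul_sum, Finset.sum_add_distrib, ← Finset.mul_sum, Finset.sum_const,
      Nat.card_Ioc, nsmul_eq_mul, Nat.sub_zero]
  rw [h6] at h3
  refine le_trans h2 (le_trans h3 ?_)
  refine mul_le_mul_of_nonneg_left ?_ (Nat.cast_nonneg D)
  have h7 := PRB_sum' J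
  have h8 : 0 ≤ ((J : ℝ) * L) ^ β := by positivity
  nlinarith

end Pool.Agent.OG
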